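import Pool.Agent.Q190.UM.SAMW
import Pool.Agent.Q97.UM.Stm20

set_option autoImplicit false

/-! Project UM14 (helper97), job SAMD: from windows to the distinct zeros, nonnegative signed combinations (adapted from Q190/UM/SAMW.lean). -/

namespace Pool.Agent.Q285.UM

open Filter Topology MeasureTheory Complex
open Pool.Agent.Q97.UM Pool.Agent.Q190.UM
open Pool.Agent.Q61.UM (samp_cmp wd Ndw_eq sum_wd)

noncomputable section

open Classical in
theorem t_SAMD : J_SAMD := by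
  intro hD _ hWIN hWIND ε hε
  have hF := H370.good_zeta
  obtain ⟨C, hC, hcnt⟩ := H370.zcount hF
  obtain ⟨H₁, hH1, hWIN⟩ := hWIN 1 one_pos
  obtain ⟨H₂, hH2, hWI⟩ := hWIND (ε / 4) (by positivity)
  obtain ⟨H, hHdef⟩ : ∃ H : ℝ, H = max H₁ H₂ := ⟨_, rfl⟩
  have hHa : H₁ ≤ H := by rw [hHdef]; exact le_max_left _ _
  have hHb : H₂ ≤ H := by rw [hHdef]; exact le_max_right _ _
  have hH : 0 < H := by linarith
  obtain ⟨θ₁, hθ₁0, hθ₁1, hev1⟩ := hWIN H hHa
  obtain ⟨θ₂, hθ₂0, hθ₂1, hev2⟩ := hWI H hHb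
  obtain ⟨θ, hθ⟩ : ∃ θ : ℝ, θ = min (min θ₁ θ₂) (ε / (128 * H)) := ⟨_, rfl⟩
  have hθ0 : 0 < θ := by rw [hθ]; positivity
  have hθa : θ ≤ θ₁ := by rw [hθ]; exact (min_le_left _ _).trans (min_le_left _ _)
  have hθb : θ ≤ θ₂ := by rw [hθ]; exact (min_le_left _ _).trans (min_le_right _ _)
  have hθ40 : θ ≤ 1 / 40 := hθa.trans hθ₁1
  have hθH : θ * (128 * H) ≤ ε := by
    have : θ ≤ ε / (128 * H) := by rw [hθ]; exact min_le_right _ _
    rw [le_div_iff₀ (by positivity)] at this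
    exact this
  refine ⟨θ, hθ0, hθ40, ?_⟩
  have hlog : ∀ᶠ T : ℝ in atTop, 12 * C * Real.log T ≤ ε / 32 * T ^ (39 / 40 : ℝ) := by
    have h1 := isLittleO_log_rpow_atTop (show (0 : ℝ) < 39 / 40 by norm_num)
    have h2 := h1.bound (show 0 < ε / 32 / (12 * C) by positivity)
    filter_upwards [h2, eventually_ge_atTop (1 : ℝ)] with T h hT
    rw [Real.norm_eq_abs, Real.norm_eq_abs, abs_of_nonneg (Real.log_nonneg hT), abs_of_nonneg (by positivity)] at h
    have h3 : 12 * C * Real.log T ≤ 12 * C * (ε / 32 / (12 * C) * T ^ (39 / 40 : ℝ)) := by gcongr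
    refine h3.trans (le_of_eq ?_)
    field_simp
  have hlog2 : ∀ᶠ T : ℝ in atTop, 8 * Real.log T ≤ T := by
    have h2 := (Real.isLittleO_log_id_atTop).bound (show (0 : ℝ) < 1 / 8 by norm_num)
    filter_upwards [h2, eventually_ge_atTop (1 : ℝ)] with T h hT
    simp only [id] at h
    rw [Real.norm_eq_abs, Real.norm_eq_abs, abs_of_nonneg (Real.log_nonneg hT), abs_of_nonneg (by positivity)] at h
    linarith
  filter_upwards [hev1, hev2, hlog, hlog2, eventually_ge_atTop (16 : ℝ), Real.tendsto_log_atTop.eventually_ge_atTop 2,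
    Real.tendsto_log_atTop.eventually_ge_atTop H] with T hev1 hev2 hlog hLT hT hL2 hLH
  intro N hN J a b hWT
  have hT0 : 0 < T := by linarith
  have hT1 : 1 ≤ T := by linarith
  have hN1 : (N : ℝ) ≤ T ^ θ₁ := hN.trans (Real.rpow_le_rpow_of_exponent_le hT1 hθa)
  have hN2 : (N : ℝ) ≤ T ^ θ₂ := hN.trans (Real.rpow_le_rpow_of_exponent_le hT1 hθb)
  have hout : 12 * C * Real.log T * T ^ (1 / 40 : ℝ) ≤ ε / 32 * T := by
    calc 12 * C * Real.log T * T ^ (1 / 40 : ℝ) ≤ ε / 32 * T ^ (39 / 40 : ℝ) * T ^ (1 / 40 : ℝ) := by gcongr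
      _ = ε / 32 * (T ^ (39 / 40 : ℝ) * T ^ (1 / 40 : ℝ)) := by ring
      _ = ε / 32 * T := by
          rw [← Real.rpow_add hT0]
          norm_num
  have hW : ∀ b : ℕ → ℂ, |(∫ t in (T + 2 * Real.log T)..(2 * T - 2 * Real.log T), Nw T (H / Real.log T) t * ‖dp N b t‖ ^ 2) -
      (H / Real.pi) * (T * N2 N b)| ≤ 1 * (H / Real.pi) * (T * N2 N b) := fun b => (hev1 N hN1 b).2.2
  have w1 := hev2 N hN2 J a b hWT
  have hmz : ∀ s ∈ H370.Zf riemannZeta T (2 * T), (1 : ℝ) ≤ mz s := by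
    intro s hs
    rw [H370.mem_Zf hF (by linarith)] at hs
    have := H370.Loc.mult_pos' hF (show 0 < s.im by linarith [hs.2.2.1]) hs.2.2.2.2
    exact_mod_cast this
  have h0 := fun i => samp_cmp hD hε hC hcnt hθ0 hθ40 hH hθH (by linarith) (by linarith) hLH (by linarith) hout hN (b i) hW (ω := wd)
      (fun s _ => by unfold wd; split_ifs <;> norm_num)
      (fun s hs => by
        have := hmz s hs
        unfold wd
        split_ifs
        · exact this
        · linarith)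
  simp_rw [← Ndw_eq] at h0
  have hVi : ∀ i, Continuous (fun t : ℝ => ‖dp N (b i) t‖ ^ 2) := fun i => ((dp_cont N (b i)).norm).pow 2
  have iSi : ∀ i, IntervalIntegrable (fun t => Ndw T (H / Real.log T) t * ‖dp N (b i) t‖ ^ 2) volume
      (T + 2 * Real.log T) (2 * T - 2 * Real.log T) := by
    obtain ⟨mS, B2, bS⟩ := Ndw_meas T (H / Real.log T)
    exact fun i => ii_mul mS bS (hVi i) _ _
  rw [int_WT N a b iSi] at w1
  -- summation of the comparison
  have hY : ∑ i, a i * ∑ s ∈ H370.Zf riemannZeta T (2 * T), wd s * ‖dp N (b i) s.im‖ ^ 2 =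
      ∑ s ∈ (H370.Zf riemannZeta T (2 * T)).filter (fun s => s.re ≤ 1 / 2), WT N a b s.im := by
    rw [sum_wd (H370.Zf riemannZeta T (2 * T)) (fun x => WT N a b x)]
    unfold WT
    simp_rw [Finset.mul_sum]
    rw [Finset.sum_comm]
    exact Finset.sum_congr rfl fun s _ => Finset.sum_congr rfl fun i _ => by ring
  have h1 : (∑ i, a i * ∫ t in (T + 2 * Real.log T)..(2 * T - 2 * Real.log T),
        Ndw T (H / Real.log T) t * ‖dp N (b i) t‖ ^ 2) -
      2 * (H / Real.log T) * ∑ s ∈ (H370.Zf riemannZeta T (2 * T)).filter (fun s => s.re ≤ 1 / 2), WT N a b s.im ≤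
      2 * (H / Real.log T) * (ε / 16 * Real.log T * (T * VW N a b)) := by
    rw [← hY]
    have e1 : (∑ i, a i * ∫ t in (T + 2 * Real.log T)..(2 * T - 2 * Real.log T),
        Ndw T (H / Real.log T) t * ‖dp N (b i) t‖ ^ 2) -
      2 * (H / Real.log T) * ∑ i, a i * ∑ s ∈ H370.Zf riemannZeta T (2 * T), wd s * ‖dp N (b i) s.im‖ ^ 2 =
      ∑ i, a i * ((∫ t in (T + 2 * Real.log T)..(2 * T - 2 * Real.log T),
        Ndw T (H / Real.log T) t * ‖dp N (b i) t‖ ^ 2) -
        2 * (H / Real.log T) * ∑ s ∈ H370.Zf riemannZeta T (2 * T), wd s * ‖dp N (b i) s.im‖ ^ 2) := by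
      rw [Finset.mul_sum, ← Finset.sum_sub_distrib]
      exact Finset.sum_congr rfl fun i _ => by ring
    have e2 : 2 * (H / Real.log T) * (ε / 16 * Real.log T * (T * VW N a b)) =
        ∑ i, |a i| * (2 * (H / Real.log T) * (ε / 16 * Real.log T * (T * N2 N (b i)))) := by
      unfold VW
      rw [Finset.mul_sum, Finset.mul_sum, Finset.mul_sum]
      exact Finset.sum_congr rfl fun i _ => by ring
    rw [e1, e2]
    refine (le_abs_self _).trans ((Finset.abs_sum_le_sum_abs _ _).trans (Finset.sum_le_sum fun i _ => ?_))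
    rw [abs_mul]
    exact mul_le_mul_of_nonneg_left (h0 i) (abs_nonneg _)
  have hfin := fin_ar2 (cM := 2 - (3 - H370.cMTinv) / 2) (M := T * MW N a b) (S := T * VW N a b) (B1 := 0) (B2 := 0) (C₂ := 0)
    hε hH (by linarith)
    (mul_nonneg hT0.le (VW_nonneg N a b)) le_rfl (by rw [mul_zero, zero_div]; exact hH.le) h1 (by
      refine le_trans (le_of_eq ?_) w1
      ring) (by rw [add_zero, add_zero]) (by rw [zero_mul]) (by rw [zero_mul])
  refine le_trans (le_of_eq ?_) hfin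
  ring

end

end Pool.Agent.Q285.UM
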