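import Pool.Agent.Q62.UM.Stm1

/-! # Project UM, job SF: the two fields (helper285) -/

set_option autoImplicit false

open Real Set MeasureTheory Topology Filter
open scoped ENNReal

namespace Pool.Agent.Q285.UM

open Pool.Agent.Q62.UM

/-- derivative along a line -/
lemma path {E : Type*} [NormedAddCommGroup E] [NormedSpace ℝ E] {f : ℂ → E} {z : ℂ}
    (hf : DifferentiableAt ℝ f z) (V : ℂ) :
    HasDerivAt (fun s : ℝ => f (z + (s : ℂ) * V)) (fderiv ℝ f z V) 0 := by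
  have h1 : HasDerivAt (fun s : ℝ => z + (s : ℂ) * V) V 0 := by
    have h := ((Complex.ofRealCLM.hasDerivAt (x := (0 : ℝ))).mul_const V).const_add z
    simpa using h
  have h2 : HasFDerivAt f (fderiv ℝ f z) (z + ((0 : ℝ) : ℂ) * V) := by
    simpa using hf.hasFDerivAt
  exact h2.comp_hasDerivAt 0 h1

/-- derivative of a function of the real part along a line -/
lemma pathre {f : ℝ → ℝ} {f' : ℝ} {z : ℂ} (hf : HasDerivAt f f' z.re) (V : ℂ) :
    HasDerivAt (fun s : ℝ => f (z + (s : ℂ) * V).re) (f' * V.re) 0 := by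
  have e1 : (fun s : ℝ => f (z + (s : ℂ) * V).re) = fun s : ℝ => f (z.re + s * V.re) := by
    funext s
    simp
  rw [e1]
  have h1 : HasDerivAt (fun s : ℝ => z.re + s * V.re) V.re 0 := by
    have h := ((hasDerivAt_id (0 : ℝ)).mul_const V.re).const_add z.re
    simpa using h
  have h2 : HasDerivAt f f' (z.re + 0 * V.re) := by
    simpa using hf
  exact h2.comp 0 h1

lemma pathim (z V : ℂ) : HasDerivAt (fun s : ℝ => (z + (s : ℂ) * V).im) V.im 0 := by
  have e1 : (fun s : ℝ => (z + (s : ℂ) * V).im) = fun s : ℝ => z.im + s * V.im := by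
    funext s
    simp
  rw [e1]
  have h := ((hasDerivAt_id (0 : ℝ)).mul_const V.im).const_add z.im
  simpa using h

variable {g : Cfg} {J : Set ℝ}

lemma dy (hJ : IsOpen J) (hg : g.Reg J) {u : ℝ} (hu : u ∈ J) (k : Fin g.d) :
    HasDerivAt (g.y k) (g.v u k) u ∧ HasDerivAt (fun u => g.v u k) (g.w u k) u := by
  have h1 := hg.y k
  have h2 : ContDiffOn ℝ 2 (deriv (g.y k)) J := h1.deriv_of_isOpen hJ (by norm_num)
  constructor
  · exact ((h1.contDiffAt (hJ.mem_nhds hu)).differentiableAt (by norm_num)).hasDerivAt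
  · exact ((h2.contDiffAt (hJ.mem_nhds hu)).differentiableAt (by norm_num)).hasDerivAt

lemma dη (hJ : IsOpen J) (hg : g.Reg J) {u : ℝ} (hu : u ∈ J) (j : Fin g.N) :
    HasDerivAt (fun u => g.e u j) (g.e u j * g.m u j) u ∧
      HasDerivAt (fun u => g.m u j) (g.l u j) u := by
  have h1 := hg.η j
  have h2 : ContDiffOn ℝ 2 (deriv (g.η j)) J := h1.deriv_of_isOpen hJ (by norm_num)
  have d1 := (h1.contDiffAt (hJ.mem_nhds hu)).differentiableAt (by norm_num)
  have d2 := (h2.contDiffAt (hJ.mem_nhds hu)).differentiableAt (by norm_num)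
  have h0 : g.η j u ≠ 0 := (hg.η0 j u hu).ne'
  constructor
  · have : g.e u j * g.m u j = deriv (g.η j) u := by
      unfold Cfg.e Cfg.m
      field_simp
    rw [this]
    exact d1.hasDerivAt
  · exact (d2.div d1 h0).hasDerivAt

lemma Hne (hg : g.Reg J) {z : ℂ} (hz : z.re ∈ J) {i k : Fin g.d} (h : i ≠ k) :
    0 < Hf (g.X z i - g.X z k) := by
  have h1 := hg.ne k i (Ne.symm h) z.re hz
  have h2 : g.X z i - g.X z k = g.y k z.re - g.y i z.re := by
    unfold Cfg.X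
    ring
  rw [h2]
  unfold Hf
  have h3 := lt_of_le_of_ne (cos_le_one _) h1
  linarith

lemma fb (c1 : S_C1) (sm : S_SM) (hJ : IsOpen J) (hg : g.Reg J) {z : ℂ} (hz : z.re ∈ J)
    (hH : ∀ k, 0 < Hf (g.X z k)) (V : ℂ) :
    fderiv ℝ g.b z V = dbb g.dir (g.X z) (g.v z.re) (fun k => V.im - g.v z.re k * V.re)
      (fun k => g.w z.re k * V.re) (g.e z.re) (g.m z.re) (fun j => g.m z.re j * V.re)
      (fun j => g.l z.re j * V.re) := by
  have ho : IsOpen {z : ℂ | z.re ∈ J} := hJ.preimage Complex.continuous_re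
  have hb := ((sm g J hJ hg).1.contDiffAt (ho.mem_nhds hz)).differentiableAt (by norm_num)
  have h1 := c1 g.d g.N g.dir (fun k s => g.X (z + (s : ℂ) * V) k)
    (fun k s => g.v (z + (s : ℂ) * V).re k) (fun j s => g.e (z + (s : ℂ) * V).re j)
    (fun j s => g.m (z + (s : ℂ) * V).re j) (fun k => V.im - g.v z.re k * V.re)
      (fun k => g.w z.re k * V.re) (fun j => g.m z.re j * V.re)
      (fun j => g.l z.re j * V.re) 0
      (fun k => (pathim z V).sub (pathre (dy hJ hg hz k).1 V))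
      (fun k => pathre (dy hJ hg hz k).2 V)
      (fun j => by
        have h := pathre (dη hJ hg hz j).1 V
        simpa [mul_assoc] using h)
      (fun j => pathre (dη hJ hg hz j).2 V)
      (fun j => by
        simp only [Complex.ofReal_zero, zero_mul, add_zero]
        exact hg.η0 j _ hz)
      (fun k => by
        simp only [Complex.ofReal_zero, zero_mul, add_zero]
        exact hH k)
  simp only [Complex.ofReal_zero, zero_mul, add_zero] at h1
  exact (path hb V).unique h1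

lemma fξ (c2 : S_C2) (sm : S_SM) (hJ : IsOpen J) (hg : g.Reg J) {z : ℂ} (hz : z.re ∈ J) (V : ℂ) :
    fderiv ℝ g.ξ z V = dxi g.dir (g.X z) (fun k => V.im - g.v z.re k * V.re)
      (g.e z.re) (fun j => g.m z.re j * V.re) := by
  have ho : IsOpen {z : ℂ | z.re ∈ J} := hJ.preimage Complex.continuous_re
  have hb := ((sm g J hJ hg).2.1.contDiffAt (ho.mem_nhds hz)).differentiableAt (by norm_num)
  have h1 := c2 g.d g.N g.dir (fun k s => g.X (z + (s : ℂ) * V) k)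
    (fun j s => g.e (z + (s : ℂ) * V).re j) (fun k => V.im - g.v z.re k * V.re)
      (fun j => g.m z.re j * V.re) 0
      (fun k => (pathim z V).sub (pathre (dy hJ hg hz k).1 V))
      (fun j => by
        have h := pathre (dη hJ hg hz j).1 V
        simpa [mul_assoc] using h)
      (fun j => by
        simp only [Complex.ofReal_zero, zero_mul, add_zero]
        exact hg.η0 j _ hz)
      (fun i k hik => by
        simp only [Complex.ofReal_zero, zero_mul, add_zero]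
        exact Hne hg hz hik)
  simp only [Complex.ofReal_zero, zero_mul, add_zero] at h1
  exact (path hb V).unique h1

/-- the formula for the rate of rotation -/
lemma Kf_eq (sm : S_SM) (hJ : IsOpen J) (hg : g.Reg J) {z : ℂ} (hz : z.re ∈ J) (t φ : ℝ) :
    Kf g.F (g.W t) z φ =
      -(t * fderiv ℝ g.ξ z Complex.I) * (sin φ - g.b z * cos φ) ^ 2 -
        cos φ * (sin φ - g.b z * cos φ) * (t * fderiv ℝ g.ξ z (1 + g.b z * Complex.I)) +
        (1 + t * g.ξ z) * cos φ ^ 2 * fderiv ℝ g.b z (1 + g.b z * Complex.I) +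
        (1 + t * g.ξ z) * (cos φ * (sin φ - g.b z * cos φ)) * fderiv ℝ g.b z Complex.I -
        (1 + t * g.ξ z) * (fderiv ℝ g.F z (1 + g.b z * Complex.I) / g.F z).im +
        (1 + t * g.ξ z) * g.b z := by
  have ho : IsOpen {z : ℂ | z.re ∈ J} := hJ.preimage Complex.continuous_re
  obtain ⟨s1, s2, s3, -⟩ := sm g J hJ hg
  have db := (s1.contDiffAt (ho.mem_nhds hz)).differentiableAt (by norm_num)
  have dξ := (s2.contDiffAt (ho.mem_nhds hz)).differentiableAt (by norm_num)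
  obtain ⟨V, hV⟩ : ∃ V : ℂ, V = 1 + g.b z * Complex.I := ⟨_, rfl⟩
  obtain ⟨E, hE⟩ : ∃ E : ℂ, E = Complex.exp (φ * Complex.I) := ⟨_, rfl⟩
  have hW : DifferentiableAt ℝ (g.W t) z := by
    unfold Cfg.W
    refine DifferentiableAt.mul ?_ ?_
    · exact Complex.ofRealCLM.differentiableAt.comp z ((dξ.const_mul t).const_add 1)
    · exact ((Complex.ofRealCLM.differentiableAt.comp z db).mul_const _).const_add 1
  have e1 : fderiv ℝ (g.W t) z E = ((t * fderiv ℝ g.ξ z E : ℝ) : ℂ) * V +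
      ((1 + t * g.ξ z : ℝ) : ℂ) * ((fderiv ℝ g.b z E : ℝ) * Complex.I) := by
    have p1 := path hW E
    have p2 := ((path dξ E).const_mul t).const_add 1
    have p3 := (((path db E).ofReal_comp).mul_const Complex.I).const_add 1
    have p4 := (p2.ofReal_comp).mul p3
    simp only [Complex.ofReal_zero, zero_mul, add_zero] at p4
    rw [← hV] at p4
    exact p1.unique p4
  have e2 : E = (cos φ) • V + (sin φ - g.b z * cos φ) • Complex.I := by
    rw [hE, hV, Complex.exp_mul_I, ← Complex.ofReal_cos, ← Complex.ofReal_sin]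
    simp only [Complex.real_smul]
    push_cast
    ring
  have e3 : fderiv ℝ g.ξ z E = cos φ * fderiv ℝ g.ξ z V +
      (sin φ - g.b z * cos φ) * fderiv ℝ g.ξ z Complex.I := by
    conv_lhs => rw [e2]
    rw [map_add, map_smul, map_smul, smul_eq_mul, smul_eq_mul]
  have e4 : fderiv ℝ g.b z E = cos φ * fderiv ℝ g.b z V +
      (sin φ - g.b z * cos φ) * fderiv ℝ g.b z Complex.I := by
    conv_lhs => rw [e2]
    rw [map_add, map_smul, map_smul, smul_eq_mul, smul_eq_mul]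
  have e5 : g.W t z = (1 + t * g.ξ z) • V := by
    unfold Cfg.W
    rw [hV, Complex.real_smul]
  have e6 : (fderiv ℝ g.F z (g.W t z) / g.F z).im =
      (1 + t * g.ξ z) * (fderiv ℝ g.F z V / g.F z).im := by
    rw [e5, map_smul, Complex.real_smul, mul_div_assoc, Complex.im_ofReal_mul]
  have e7 : (g.W t z).im = (1 + t * g.ξ z) * g.b z := by
    rw [e5, Complex.real_smul, Complex.im_ofReal_mul, hV]
    simp
  have e8 : Complex.exp (-(φ * Complex.I)) = (cos φ : ℂ) - (sin φ : ℂ) * Complex.I := by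
    have : -((φ : ℂ) * Complex.I) = ((-φ : ℝ) : ℂ) * Complex.I := by push_cast; ring
    rw [this, Complex.exp_mul_I, ← Complex.ofReal_cos, ← Complex.ofReal_sin, cos_neg, sin_neg]
    push_cast
    ring
  have e9 : (fderiv ℝ (g.W t) z E * Complex.exp (-(φ * Complex.I))).im =
      -(sin φ - g.b z * cos φ) * (t * fderiv ℝ g.ξ z E) +
        (1 + t * g.ξ z) * cos φ * fderiv ℝ g.b z E := by
    rw [e1, e8, hV]
    generalize cos φ = co
    generalize sin φ = si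
    simp
    ring
  unfold Kf
  rw [← hE, e6, e7, e9, e3, e4, ← hV]
  ring

lemma KK_ge {d N : ℕ} (dir : Fin N → Fin d) (x : Fin d → ℝ) (e : Fin N → ℝ) (he : ∀ j, 0 < e j) :
    1 ≤ KK dir x e := by
  unfold KK
  have h1 : 0 ≤ ∑ j, √(e j) / (e j + Hf (x (dir j))) :=
    Finset.sum_nonneg fun j _ => div_nonneg (sqrt_nonneg _) (add_nonneg (he j).le (Hf_nonneg _))
  have h2 : 0 ≤ ∑ k, ∑ i ∈ Finset.univ.erase k, √(Hf (x i - x k)) / (Hf (x i - x k) + Hf (x k)) :=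
    Finset.sum_nonneg fun k _ => Finset.sum_nonneg fun i _ =>
      div_nonneg (sqrt_nonneg _) (add_nonneg (Hf_nonneg _) (Hf_nonneg _))
  linarith

lemma pj {e H : ℝ} (he : 0 < e) (he1 : e ≤ 1) (hH : 0 < H) (hH4 : H ≤ 4) :
    0 ≤ e / (e ^ 2 + (1 - e ^ 2) * H / 4) ∧
      e / (e ^ 2 + (1 - e ^ 2) * H / 4) ≤ 8 * (e / (e ^ 2 + H)) := by
  have h1 : 0 < e ^ 2 := by positivity
  have h2 : e ^ 2 ≤ 1 := pow_le_one₀ he.le he1
  have h3 : (e ^ 2 + H) / 8 ≤ e ^ 2 + (1 - e ^ 2) * H / 4 := by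
    nlinarith [mul_nonneg h1.le (sub_nonneg.2 hH4), mul_nonneg hH.le (sub_nonneg.2 h2)]
  have h4 : 0 < e ^ 2 + (1 - e ^ 2) * H / 4 := lt_of_lt_of_le (by positivity) h3
  refine ⟨by positivity, ?_⟩
  have e1 : 8 * (e / (e ^ 2 + H)) = e / ((e ^ 2 + H) / 8) := by
    field_simp
  rw [e1]
  exact div_le_div_of_nonneg_left he.le (by positivity) h3

/-- the constants -/
lemma consts (g : Cfg) : 1 ≤ MM g.d g.N ∧ (g.N : ℝ) ≤ MM g.d g.N ∧ MM g.d g.N ≤ g.CM ∧
    60 * MM g.d g.N ^ 3 ≤ g.CM ∧ 20 * MM g.d g.N ^ 2 ≤ g.CM ∧ 10 * MM g.d g.N ^ 3 ≤ g.CM ∧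
    1 + |(g.q : ℝ)| * MM g.d g.N + 61 * g.N * MM g.d g.N ≤ g.CM := by
  obtain ⟨M, hM⟩ : ∃ M, M = MM g.d g.N := ⟨_, rfl⟩
  obtain ⟨q, hq⟩ : ∃ q : ℝ, q = |(g.q : ℝ)| := ⟨_, rfl⟩
  have hC : g.CM = 100 * (q + 1) * M ^ 3 := by
    rw [hM, hq]
    rfl
  have hN : (0 : ℝ) ≤ g.N := Nat.cast_nonneg _
  have hd : (0 : ℝ) ≤ g.d := Nat.cast_nonneg _
  have h2 : (g.N : ℝ) + 1 ≤ M := by
    rw [hM]
    unfold MM
    nlinarith
  have h1 : 1 ≤ M := by linarith
  have hq0 : 0 ≤ q := by rw [hq]; positivity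
  have m2 : M ≤ M ^ 2 := by nlinarith
  have m3 : M ^ 2 ≤ M ^ 3 := by nlinarith [sq_nonneg M]
  have hqM : 0 ≤ q * M ^ 3 := by positivity
  have hqM2 : q * M ≤ q * M ^ 3 := mul_le_mul_of_nonneg_left (by linarith) hq0
  have hNM : (g.N : ℝ) * M ≤ M ^ 2 := by nlinarith
  rw [← hM, hC, ← hq]
  refine ⟨h1, by linarith, by nlinarith, by nlinarith, by nlinarith, by nlinarith, by nlinarith⟩

/-- the two inequalities at generic points -/
lemma generic (h2 : S_S2) (h3 : S_S3) (h5 : S_S5) (h6 : S_S6) (h7 : S_S7) (h8 : S_S8) (h9 : S_S9)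
    (c1 : S_C1) (c2 : S_C2) (sm : S_SM) (th : S_TH) (hJ : IsOpen J) (hg : g.Reg J) {κ : ℝ}
    (hκ : 0 ≤ κ) (hC : g.CM * κ ≤ 1 / 2) {z : ℂ} (hz : z.re ∈ J) (hB : g.Bd z.re κ)
    (hH : ∀ k, 0 < Hf (g.X z k)) (φ : ℝ) :
    Kf g.F (g.W κ) z φ ≤ 16 * g.CM ^ 2 * κ ∧
      -(16 * g.CM ^ 2 * κ) ≤ Kf g.F (g.W (-κ)) z φ := by
  obtain ⟨k1, k2, k3, k4, k5, k6, k7⟩ := consts g
  have hM0 : 0 ≤ MM g.d g.N := by linarith
  have jt : Jt g.dir (g.X z) (g.v z.re) (g.w z.re) (g.e z.re) (g.m z.re) (g.l z.re) κ :=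
    hB.1 z.im
  have a3 := h3 _ _ _ _ _ _ _ _ _ _ jt hH
  have hb : bb g.dir (g.X z) (g.v z.re) (g.e z.re) (g.m z.re) = g.b z := rfl
  have a5 := h5 _ _ _ _ _ _ _ _ _ _ jt hH a3.1 a3.2
  have a6 := h6 _ _ _ _ _ _ _ _ _ _ jt hH
  have a7 := h7 _ _ _ _ _ _ _ _ _ _ jt hH a3.2
  have a8 := h8 g.d g.N g.dir (g.X z) (g.e z.re) (fun j => hg.η0 j _ hz) (fun j => (hg.η1 j _ hz).le)
  have a8' := a8.2 hH
  have b1 : fderiv ℝ g.b z (1 + g.b z * Complex.I) = dbb g.dir (g.X z) (g.v z.re)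
      (fun k => bb g.dir (g.X z) (g.v z.re) (g.e z.re) (g.m z.re) - g.v z.re k)
      (g.w z.re) (g.e z.re) (g.m z.re) (g.m z.re) (g.l z.re) := by
    rw [fb c1 sm hJ hg hz hH, hb]
    simp
  have b2 : fderiv ℝ g.b z Complex.I = dbb g.dir (g.X z) (g.v z.re)
      (fun _ => 1) (fun _ => 0) (g.e z.re) (g.m z.re) (fun _ => 0) (fun _ => 0) := by
    rw [fb c1 sm hJ hg hz hH]
    simp
  have b3 : fderiv ℝ g.ξ z (1 + g.b z * Complex.I) = dxi g.dir (g.X z)
      (fun k => bb g.dir (g.X z) (g.v z.re) (g.e z.re) (g.m z.re) - g.v z.re k)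
      (g.e z.re) (g.m z.re) := by
    rw [fξ c2 sm hJ hg hz, hb]
    simp
  have b4 : fderiv ℝ g.ξ z Complex.I = dxi g.dir (g.X z) (fun _ => 1) (g.e z.re) (fun _ => 0) := by
    rw [fξ c2 sm hJ hg hz]
    simp
  rw [← b1] at a5
  rw [← b2] at a6
  rw [← b3] at a7
  rw [← b4] at a8'
  rw [hb] at a3
  have hC1 : 1 ≤ g.CM := le_trans k1 k3
  have hK1 : 1 ≤ KK g.dir (g.X z) (g.e z.re) := KK_ge _ _ _ fun j => hg.η0 j _ hz
  have g1 : |g.b z| ≤ g.CM * κ := a3.1.trans (mul_le_mul_of_nonneg_right k3 hκ)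
  have g2 : |fderiv ℝ g.b z (1 + g.b z * Complex.I)| ≤ g.CM * κ :=
    a5.trans (mul_le_mul_of_nonneg_right k4 hκ)
  have g3 : fderiv ℝ g.b z Complex.I ^ 2 ≤ (g.CM * κ) ^ 2 * KK g.dir (g.X z) (g.e z.re) := by
    refine a6.trans (mul_le_mul_of_nonneg_right ?_ (by linarith))
    exact pow_le_pow_left₀ (by positivity) (mul_le_mul_of_nonneg_right k5 hκ) 2
  have g4 : fderiv ℝ g.ξ z (1 + g.b z * Complex.I) ^ 2 ≤
      (g.CM * κ) ^ 2 * KK g.dir (g.X z) (g.e z.re) := by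
    refine a7.trans (mul_le_mul_of_nonneg_right ?_ (by linarith))
    exact pow_le_pow_left₀ (by positivity) (mul_le_mul_of_nonneg_right k6 hκ) 2
  have hMM : MM g.d g.N ^ 2 ≤ 20 * MM g.d g.N ^ 2 := by nlinarith [sq_nonneg (MM g.d g.N)]
  have g5 : KK g.dir (g.X z) (g.e z.re) / 3 - g.CM ≤ fderiv ℝ g.ξ z Complex.I := by
    linarith
  have g6 : |g.ξ z| ≤ g.CM := by
    have : |g.ξ z| ≤ 2 * MM g.d g.N ^ 2 := a8.1
    nlinarith [sq_nonneg (MM g.d g.N)]
  have g7 : |(fderiv ℝ g.F z (1 + g.b z * Complex.I) / g.F z).im| ≤ g.CM * κ := by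
    rw [th g J hJ hg z hz (g.b z)]
    have t1 : ∀ j : Fin g.N, |(g.b z + g.v z.re (g.dir j)) / 2 + g.s j / 2 *
        (g.e z.re j / (g.e z.re j ^ 2 + (1 - g.e z.re j ^ 2) * Hf (g.X z (g.dir j)) / 4)) *
          (g.b z - g.v z.re (g.dir j) - g.m z.re j * sin (g.X z (g.dir j)))| ≤
        61 * MM g.d g.N * κ := by
      intro j
      have s2 := h2 _ _ _ _ _ _ _ _ _ _ jt hH j
      rw [hb] at s2
      obtain ⟨p0, p1⟩ := pj (hg.η0 j _ hz) (hg.η1 j _ hz).le (hH (g.dir j)) (Hf_le _)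
      have hs : |g.s j| = 1 := by
        rcases hg.s j with h | h <;> rw [h] <;> simp
      refine (abs_add_le _ _).trans ?_
      have u1 : |(g.b z + g.v z.re (g.dir j)) / 2| ≤ MM g.d g.N * κ := by
        rw [abs_div, abs_two]
        have := abs_add_le (g.b z) (g.v z.re (g.dir j))
        have := jt.h1 (g.dir j)
        nlinarith [a3.1]
      have u2 : |g.s j / 2 *
          (g.e z.re j / (g.e z.re j ^ 2 + (1 - g.e z.re j ^ 2) * Hf (g.X z (g.dir j)) / 4)) *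
          (g.b z - g.v z.re (g.dir j) - g.m z.re j * sin (g.X z (g.dir j)))| ≤
          60 * MM g.d g.N * κ := by
        rw [abs_mul, abs_mul, abs_div, hs, abs_two]
        have e1 : |g.e z.re j / (g.e z.re j ^ 2 + (1 - g.e z.re j ^ 2) *
            Hf (g.X z (g.dir j)) / 4)| ≤ 8 * aa g.dir (g.X z) (g.e z.re) j :=
          (abs_of_nonneg p0).trans_le p1
        have e2 := mul_le_mul_of_nonneg_right e1
          (abs_nonneg (g.b z - g.v z.re (g.dir j) - g.m z.re j * sin (g.X z (g.dir j))))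
        linarith
      linarith
    have t2 : |∑ j, ((g.b z + g.v z.re (g.dir j)) / 2 + g.s j / 2 *
        (g.e z.re j / (g.e z.re j ^ 2 + (1 - g.e z.re j ^ 2) * Hf (g.X z (g.dir j)) / 4)) *
          (g.b z - g.v z.re (g.dir j) - g.m z.re j * sin (g.X z (g.dir j))))| ≤
        g.N * (61 * MM g.d g.N * κ) := by
      refine (Finset.abs_sum_le_sum_abs _ _).trans ((Finset.sum_le_sum fun j _ => t1 j).trans ?_)
      simp
    have t3 : |(g.q : ℝ) * g.b z| ≤ |(g.q : ℝ)| * (MM g.d g.N * κ) := by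
      rw [abs_mul]
      exact mul_le_mul_of_nonneg_left a3.1 (abs_nonneg _)
    refine (abs_add_le _ _).trans ((add_le_add ((abs_add_le _ _).trans (add_le_add hB.2 t3)) t2).trans ?_)
    have := mul_le_mul_of_nonneg_right k7 hκ
    linarith
  have key := h9 g.CM κ (KK g.dir (g.X z) (g.e z.re)) (g.ξ z) (fderiv ℝ g.ξ z Complex.I)
    (fderiv ℝ g.ξ z (1 + g.b z * Complex.I)) (g.b z) (fderiv ℝ g.b z Complex.I)
    (fderiv ℝ g.b z (1 + g.b z * Complex.I)) (fderiv ℝ g.F z (1 + g.b z * Complex.I) / g.F z).im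
    (cos φ) (sin φ) hC1 hκ hC hK1 (cos_sq_add_sin_sq φ) g1 g2 g3 g4 g5 g6 g7
  rw [Kf_eq sm hJ hg hz, Kf_eq sm hJ hg hz]
  constructor
  · exact key.2.1
  · refine key.2.2.trans (le_of_eq ?_)
    ring

lemma dense_gen (g : Cfg) (u : ℝ) : Dense {θ : ℝ | ∀ k, 0 < Hf (θ - g.y k u)} := by
  have h1 : {θ : ℝ | ∀ k, 0 < Hf (θ - g.y k u)} =
      (⋃ k : Fin g.d, ⋃ n : ℤ, {(n : ℝ) * (2 * π) + g.y k u})ᶜ := by
    ext θ
    simp only [mem_ofPred_eq, mem_compl_iff, mem_iUnion, mem_singleton_iff, not_exists]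
    refine forall_congr' fun k => ?_
    have e1 : 0 < Hf (θ - g.y k u) ↔ cos (θ - g.y k u) ≠ 1 := by
      unfold Hf
      constructor
      · intro h h'
        rw [h'] at h
        norm_num at h
      · intro h
        have := lt_of_le_of_ne (cos_le_one _) h
        linarith
    rw [e1, Ne, cos_eq_one_iff, not_exists]
    refine forall_congr' fun n => not_congr ?_
    constructor
    · intro h
      rw [h]
      ring
    · intro h
      rw [h]
      ring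
  rw [h1]
  exact Set.Countable.dense_compl ℝ (countable_iUnion fun k => countable_iUnion fun n => countable_singleton _)

lemma W_cd (sm : S_SM) (hJ : IsOpen J) (hg : g.Reg J) (t : ℝ) :
    ContDiffOn ℝ 1 (g.W t) {z | z.re ∈ J} := by
  obtain ⟨s1, s2, -⟩ := sm g J hJ hg
  unfold Cfg.W
  refine ContDiffOn.mul ?_ ?_
  · exact Complex.ofRealCLM.contDiff.comp_contDiffOn (contDiffOn_const.add (contDiffOn_const.mul s2))
  · exact contDiffOn_const.add ((Complex.ofRealCLM.contDiff.comp_contDiffOn s1).mul contDiffOn_const)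

lemma Kf_cont (sm : S_SM) (hJ : IsOpen J) (hg : g.Reg J) (t φ u : ℝ) (hu : u ∈ J) :
    Continuous fun θ : ℝ => Kf g.F (g.W t) ⟨u, θ⟩ φ := by
  have ho : IsOpen {z : ℂ | z.re ∈ J} := hJ.preimage Complex.continuous_re
  obtain ⟨-, -, s3, s0, -⟩ := sm g J hJ hg
  have hW := W_cd sm hJ hg t
  have hp : Continuous fun θ : ℝ => (⟨u, θ⟩ : ℂ) := by
    have : (fun θ : ℝ => (⟨u, θ⟩ : ℂ)) = fun θ : ℝ => (u : ℂ) + θ * Complex.I := by
      funext θ
      apply Complex.ext <;> simp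
    rw [this]
    fun_prop
  have hm : ∀ θ : ℝ, (⟨u, θ⟩ : ℂ) ∈ {z : ℂ | z.re ∈ J} := fun θ => hu
  have c1 : Continuous fun θ : ℝ => fderiv ℝ (g.W t) (⟨u, θ⟩ : ℂ) :=
    (hW.continuousOn_fderiv_of_isOpen ho le_rfl).comp_continuous hp hm
  have c2 : Continuous fun θ : ℝ => fderiv ℝ g.F (⟨u, θ⟩ : ℂ) :=
    (s3.continuousOn_fderiv_of_isOpen ho le_rfl).comp_continuous hp hm
  have c3 : Continuous fun θ : ℝ => g.W t (⟨u, θ⟩ : ℂ) := hW.continuousOn.comp_continuous hp hm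
  have c4 : Continuous fun θ : ℝ => g.F (⟨u, θ⟩ : ℂ) := s3.continuousOn.comp_continuous hp hm
  unfold Kf
  refine ((Complex.continuous_im.comp ((c1.clm_apply continuous_const).mul continuous_const)).sub
    (Complex.continuous_im.comp ((c2.clm_apply c3).div c4 fun θ => s0 _ hu))).add
    (Complex.continuous_im.comp c3)

lemma mv (h8 : S_S8) (sm : S_SM) (hJ : IsOpen J) (hg : g.Reg J) {U : Set ℝ} (hU : U ⊆ J) {κ : ℝ}
    (hκ : 0 ≤ κ) (hC : g.CM * κ ≤ 1 / 2) {t : ℝ} (ht : |t| = κ) : Mv (g.W t) J U := by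
  have hs := sm g J hJ hg
  refine ⟨fun z => ?_, W_cd sm hJ hg t, fun z hz => ?_⟩
  · unfold Cfg.W
    rw [hs.2.2.2.2.1, hs.2.2.2.2.2.1]
  · have hzJ := hU hz
    have a8 : |g.ξ z| ≤ 2 * MM g.d g.N ^ 2 :=
      (h8 g.d g.N g.dir (g.X z) (g.e z.re) (fun j => hg.η0 j _ hzJ) (fun j => (hg.η1 j _ hzJ).le)).1
    obtain ⟨k1, k2, k3, k4, k5, k6, k7⟩ := consts g
    have e1 : (g.W t z).re = 1 + t * g.ξ z := by
      unfold Cfg.W
      rw [Complex.re_ofReal_mul]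
      simp
    rw [e1]
    have h1 : |t * g.ξ z| ≤ 1 / 2 := by
      rw [abs_mul, ht]
      have h2 : κ * |g.ξ z| ≤ κ * g.CM := mul_le_mul_of_nonneg_left (by nlinarith [sq_nonneg (MM g.d g.N)]) hκ
      linarith
    have := (abs_le.1 h1).1
    linarith

theorem sf (h2 : S_S2) (h3 : S_S3) (h5 : S_S5) (h6 : S_S6) (h7 : S_S7) (h8 : S_S8) (h9 : S_S9)
    (c1 : S_C1) (c2 : S_C2) (sm : S_SM) (th : S_TH) : S_SF := by
  intro g J U κ hJ hg hU hκ hC hB
  have key : ∀ (z : ℂ) (φ : ℝ), z.re ∈ U → Kf g.F (g.W κ) z φ ≤ 16 * g.CM ^ 2 * κ ∧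
      -(16 * g.CM ^ 2 * κ) ≤ Kf g.F (g.W (-κ)) z φ := by
    intro z φ hz
    have hzJ := hU hz
    have hcl : IsClosed {θ : ℝ | Kf g.F (g.W κ) ⟨z.re, θ⟩ φ ≤ 16 * g.CM ^ 2 * κ ∧
        -(16 * g.CM ^ 2 * κ) ≤ Kf g.F (g.W (-κ)) ⟨z.re, θ⟩ φ} :=
      (isClosed_le (Kf_cont sm hJ hg κ φ z.re hzJ) continuous_const).inter
        (isClosed_le continuous_const (Kf_cont sm hJ hg (-κ) φ z.re hzJ))
    have hsub : {θ : ℝ | ∀ k, 0 < Hf (θ - g.y k z.re)} ⊆
        {θ : ℝ | Kf g.F (g.W κ) ⟨z.re, θ⟩ φ ≤ 16 * g.CM ^ 2 * κ ∧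
          -(16 * g.CM ^ 2 * κ) ≤ Kf g.F (g.W (-κ)) ⟨z.re, θ⟩ φ} := fun θ hθ =>
      generic h2 h3 h5 h6 h7 h8 h9 c1 c2 sm th hJ hg hκ hC (z := ⟨z.re, θ⟩) hzJ (hB _ hz) hθ φ
    have h1 := closure_minimal hsub hcl
    rw [(dense_gen g z.re).closure_eq] at h1
    exact h1 (mem_univ z.im)
  exact ⟨mv h8 sm hJ hg hU hκ hC (abs_of_nonneg hκ),
    mv h8 sm hJ hg hU hκ hC (by rw [abs_neg, abs_of_nonneg hκ]),
    fun z φ hz => (key z φ hz).1, fun z φ hz => (key z φ hz).2⟩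

end Pool.Agent.Q285.UM
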