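import Pool.Agent.Q97.UM.Stm21
import Pool.Agent.Q96.UM.WID
import Pool.Agent.Helper601.Mertens

set_option autoImplicit false

/-! Project UM15 (helper97), job WIDA: polynomials in the prime sum with bounded coefficients as
signed combinations, uniformly in the coefficients. -/

open Pool.Agent Pool.Agent.Q97.UM
open Filter Topology MeasureTheory Complex ProbabilityTheory

namespace Pool.Agent.Q285.UM

open Pool.Agent.Q96.UM (N2_nonneg dp_mul dp_add dp_sub dp_ext N2_ext N2_mul N2_add_disj N2_sub_disj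
  re_mul_conj re_pow gm_sum sg sg_pos)

noncomputable section

/-- functions which are signed combinations, uniformly in the bounded coefficients `α` -/
def Gd (A : ℝ) (D : ℕ) (f : (ℕ → ℂ) → ℕ → ℝ → ℝ) (m : (ℕ → ℂ) → ℕ → ℝ) : Prop :=
  ∃ C : ℝ, 0 ≤ C ∧ ∀ ε : ℝ, 0 < ε →
  ∀ᶠ X : ℕ in atTop, ∀ N : ℕ, X ^ D ≤ N → ∀ α : ℕ → ℂ, (∀ n, ‖α n‖ ≤ A) →
  ∃ (J : ℕ) (a : Fin J → ℝ) (b : Fin J → ℕ → ℂ), (∀ t : ℝ, WT N a b t = f α X t) ∧ VW N a b ≤ C ∧
    |MW N a b - m α X| ≤ ε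

lemma Gd.add {A : ℝ} {D : ℕ} {f g : (ℕ → ℂ) → ℕ → ℝ → ℝ} {m m' : (ℕ → ℂ) → ℕ → ℝ}
    (hf : Gd A D f m) (hg : Gd A D g m') :
    Gd A D (fun α X t => f α X t + g α X t) (fun α X => m α X + m' α X) := by
  obtain ⟨C, hC, h1⟩ := hf
  obtain ⟨C', hC', h2⟩ := hg
  refine ⟨C + C', by positivity, fun ε hε => ?_⟩
  filter_upwards [h1 (ε / 2) (by positivity), h2 (ε / 2) (by positivity)] with X k1 k2 N hN α hα
  obtain ⟨J, a, b, l1, l2, l3⟩ := k1 N hN α hα
  obtain ⟨J', a', b', l1', l2', l3'⟩ := k2 N hN α hα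
  refine ⟨J + J', Fin.append a a', Fin.append b b', fun t => ?_, ?_, ?_⟩
  · unfold WT
    rw [Fin.sum_univ_add]
    simp only [Fin.append_left, Fin.append_right]
    rw [← l1 t, ← l1' t]
    rfl
  · unfold VW at *
    rw [Fin.sum_univ_add]
    simp only [Fin.append_left, Fin.append_right]
    linarith
  · unfold MW at *
    rw [Fin.sum_univ_add]
    simp only [Fin.append_left, Fin.append_right]
    rw [abs_le] at *
    constructor <;> linarith

lemma Gd.smul {A : ℝ} {D : ℕ} {f : (ℕ → ℂ) → ℕ → ℝ → ℝ} {m : (ℕ → ℂ) → ℕ → ℝ} (c : ℝ)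
    (hf : Gd A D f m) : Gd A D (fun α X t => c * f α X t) (fun α X => c * m α X) := by
  obtain ⟨C, hC, h1⟩ := hf
  refine ⟨|c| * C, by positivity, fun ε hε => ?_⟩
  filter_upwards [h1 (ε / (|c| + 1)) (by positivity)] with X k1 N hN α hα
  obtain ⟨J, a, b, l1, l2, l3⟩ := k1 N hN α hα
  refine ⟨J, fun i => c * a i, b, fun t => ?_, ?_, ?_⟩
  · rw [← l1 t]
    unfold WT
    rw [Finset.mul_sum]
    exact Finset.sum_congr rfl fun i _ => by ring
  · have : VW N (fun i => c * a i) b = |c| * VW N a b := by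
      unfold VW
      rw [Finset.mul_sum]
      exact Finset.sum_congr rfl fun i _ => by rw [abs_mul]; ring
    rw [this]
    exact mul_le_mul_of_nonneg_left l2 (abs_nonneg _)
  · have : MW N (fun i => c * a i) b = c * MW N a b := by
      unfold MW
      rw [Finset.mul_sum]
      exact Finset.sum_congr rfl fun i _ => by ring
    rw [this, ← mul_sub, abs_mul]
    calc |c| * |MW N a b - m α X| ≤ |c| * (ε / (|c| + 1)) :=
        mul_le_mul_of_nonneg_left l3 (abs_nonneg _)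
      _ ≤ (|c| + 1) * (ε / (|c| + 1)) := by
        apply mul_le_mul_of_nonneg_right (by linarith) (by positivity)
      _ = ε := by field_simp

lemma Gd.zero (A : ℝ) (D : ℕ) : Gd A D (fun _ _ _ => 0) (fun _ _ => 0) := by
  refine ⟨0, le_rfl, fun ε hε => Eventually.of_forall fun X N _ α _ => ⟨0, Fin.elim0, Fin.elim0,
    fun t => ?_, ?_, ?_⟩⟩
  · simp [WT]
  · simp [VW]
  · simp [MW, hε.le]

lemma Gd.sum {A : ℝ} {D : ℕ} (s : Finset ℕ) (f : ℕ → (ℕ → ℂ) → ℕ → ℝ → ℝ)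
    (m : ℕ → (ℕ → ℂ) → ℕ → ℝ) (h : ∀ i ∈ s, Gd A D (f i) (m i)) :
    Gd A D (fun α X t => ∑ i ∈ s, f i α X t) (fun α X => ∑ i ∈ s, m i α X) := by
  induction s using Finset.induction_on with
  | empty => simpa using Gd.zero A D
  | insert i s hi ih =>
    have h1 := (h i (Finset.mem_insert_self i s)).add (ih fun j hj => h j (Finset.mem_insert_of_mem hj))
    simp only [Finset.sum_insert hi]
    exact h1

lemma Gd.congr {A : ℝ} {D : ℕ} {f g : (ℕ → ℂ) → ℕ → ℝ → ℝ} {m m' : (ℕ → ℂ) → ℕ → ℝ}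
    (hf : Gd A D f m) (h : ∀ α X t, f α X t = g α X t)
    (h' : ∀ α X, m α X = m' α X) : Gd A D g m' := by
  have e1 : f = g := by funext α X t; exact h α X t
  have e2 : m = m' := by funext α X; exact h' α X
  rw [← e1, ← e2]
  exact hf

/-- the normalised prime sum -/
def una (α : ℕ → ℂ) (X : ℕ) (t : ℝ) : ℂ := ((sg X)⁻¹ : ℝ) * dp X (pca α X) t

lemma RNa_eq (α : ℕ → ℂ) (X : ℕ) (t : ℝ) : RNa α X t = (una α X t).re := by
  unfold RNa una
  rw [re_ofReal_mul, div_eq_inv_mul]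
  rfl

/-- normalised coefficients -/
def bta (α : ℕ → ℂ) (X j n : ℕ) : ℂ := (((sg X)⁻¹ ^ j : ℝ) : ℂ) * pka α X j n

lemma dp_bta (h : S_PWKA) {α : ℕ → ℂ} {D X j N : ℕ} (hj : j ≤ D) (hX : 1 ≤ X) (hN : X ^ D ≤ N)
    (t : ℝ) : dp N (bta α X j) t = una α X t ^ j := by
  have h1 : X ^ j ≤ N := (Nat.pow_le_pow_right hX hj).trans hN
  have h2 : dp N (pka α X j) t = dp X (pca α X) t ^ j := by
    rw [← h.1 α j X t]
    refine dp_ext h1 _ (fun n hn => ?_) t
    by_contra hne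
    have := (h.2.1 α j X n hne).2.1
    omega
  have h3 : dp N (bta α X j) t = (((sg X)⁻¹ ^ j : ℝ) : ℂ) * dp N (pka α X j) t := dp_mul N _ _ t
  rw [h3, h2]
  unfold una
  rw [mul_pow]
  push_cast
  rfl

lemma N2_bta (h : S_PWKA) {α : ℕ → ℂ} {D X j N : ℕ} (hj : j ≤ D) (hX : 1 ≤ X) (hN : X ^ D ≤ N) :
    N2 N (bta α X j) = ((sg X)⁻¹ ^ j) ^ 2 * N2 (X ^ j) (pka α X j) := by
  have h1 : X ^ j ≤ N := (Nat.pow_le_pow_right hX hj).trans hN
  have h2 : N2 N (pka α X j) = N2 (X ^ j) (pka α X j) := by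
    refine N2_ext h1 _ (fun n hn => ?_)
    by_contra hne
    have := (h.2.1 α j X n hne).2.1
    omega
  have h3 : N2 N (bta α X j) = ‖(((sg X)⁻¹ ^ j : ℝ) : ℂ)‖ ^ 2 * N2 N (pka α X j) := N2_mul N _ _
  rw [h3, h2, Complex.norm_real, Real.norm_eq_abs, sq_abs]

lemma ll_tendsto : Tendsto (fun X : ℕ => Real.log (Real.log X)) atTop atTop :=
  Real.tendsto_log_atTop.comp (Real.tendsto_log_atTop.comp tendsto_natCast_atTop_atTop)

lemma N2_zero (α : ℕ → ℂ) (X : ℕ) : N2 (X ^ 0) (pka α X 0) = 1 := by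
  simp [N2, pka]

/-- the variance is bounded -/
lemma va_bd (A : ℝ) : ∀ᶠ X : ℕ in atTop, ∀ α : ℕ → ℂ, (∀ n, ‖α n‖ ≤ A) →
    0 ≤ va α X ∧ va α X ≤ 2 * A ^ 2 := by
  obtain ⟨C, hC⟩ := Pool.Agent.Helper601.Mertens.mertens_inv
  filter_upwards [ll_tendsto.eventually_gt_atTop 0, ll_tendsto.eventually_ge_atTop C,
    eventually_ge_atTop 3] with X h0 h1 h3 α hα
  have hs : N2 X (pca α X) ≤ A ^ 2 * ∑ p ∈ (Finset.Icc 1 X).filter Nat.Prime, (1 : ℝ) / p := by
    unfold N2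
    rw [Finset.sum_filter, Finset.mul_sum]
    refine Finset.sum_le_sum fun n hn => ?_
    have hn1 : 1 ≤ n ∧ n ≤ X := Finset.mem_Icc.1 hn
    have hnp : (0 : ℝ) < n := by exact_mod_cast hn1.1
    unfold pca
    by_cases hp : n.Prime
    · rw [if_pos ⟨hp, hn1.2⟩, if_pos hp, mul_one_div]
      have h5 : ‖α n‖ ^ 2 ≤ A ^ 2 := pow_le_pow_left₀ (norm_nonneg _) (hα n) 2
      exact div_le_div_of_nonneg_right h5 hnp.le
    · rw [if_neg (fun hh => hp hh.1), if_neg hp]
      simp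
  have hm := hC X h3
  rw [abs_le] at hm
  have hA : 0 ≤ A ^ 2 := sq_nonneg A
  unfold va
  refine ⟨div_nonneg (N2_nonneg _ _) h0.le, ?_⟩
  rw [div_le_iff₀ h0]
  calc N2 X (pca α X) ≤ A ^ 2 * ∑ p ∈ (Finset.Icc 1 X).filter Nat.Prime, (1 : ℝ) / p := hs
    _ ≤ A ^ 2 * (2 * Real.log (Real.log X)) := by
      apply mul_le_mul_of_nonneg_left _ hA
      linarith
    _ = 2 * A ^ 2 * Real.log (Real.log X) := by ring

lemma N2_lima (h : S_PWKA) {A : ℝ} (hA : 0 ≤ A) (j : ℕ) {ε : ℝ} (hε : 0 < ε) :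
    ∀ᶠ X : ℕ in atTop, ∀ α : ℕ → ℂ, (∀ n, ‖α n‖ ≤ A) →
    |((sg X)⁻¹ ^ j) ^ 2 * N2 (X ^ j) (pka α X j) - j.factorial * 2 ^ j * va α X ^ j| ≤ ε := by
  rcases Nat.eq_zero_or_pos j with hj | hj
  · subst hj
    refine Eventually.of_forall fun X α _ => ?_
    rw [N2_zero]
    simp [hε.le]
  · obtain ⟨C, hC, h1⟩ := h.2.2 j A hA
    filter_upwards [h1, ll_tendsto.eventually_gt_atTop 0,
      ll_tendsto.eventually_ge_atTop (2 ^ j * C / ε)] with X h2 h3 h4 α hα
    have h5 := h2 α hα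
    have h6 : ((sg X)⁻¹ ^ j) ^ 2 = 2 ^ j / Real.log (Real.log X) ^ j := by
      rw [← pow_mul, mul_comm j 2, pow_mul, inv_pow]
      unfold sg
      rw [Real.sq_sqrt (by positivity), inv_div, div_pow]
    have h7 : ((sg X)⁻¹ ^ j) ^ 2 * N2 (X ^ j) (pka α X j) - j.factorial * 2 ^ j * va α X ^ j =
        2 ^ j / Real.log (Real.log X) ^ j *
          (N2 (X ^ j) (pka α X j) - (j.factorial : ℝ) * N2 X (pca α X) ^ j) := by
      rw [h6]
      unfold va
      rw [div_pow]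
      ring
    rw [h7, abs_mul, abs_of_nonneg (by positivity : 0 ≤ 2 ^ j / Real.log (Real.log X) ^ j)]
    calc 2 ^ j / Real.log (Real.log X) ^ j *
          |N2 (X ^ j) (pka α X j) - (j.factorial : ℝ) * N2 X (pca α X) ^ j|
        ≤ 2 ^ j / Real.log (Real.log X) ^ j * (C * Real.log (Real.log X) ^ (j - 1)) :=
          mul_le_mul_of_nonneg_left h5 (by positivity)
      _ = 2 ^ j * C / Real.log (Real.log X) := by
          obtain ⟨i, rfl⟩ : ∃ i, j = i + 1 := ⟨j - 1, by omega⟩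
          have e : i + 1 - 1 = i := by omega
          rw [e, pow_succ (Real.log (Real.log X)) i]
          field_simp
      _ ≤ ε := by
          rw [div_le_iff₀ h3]
          rw [div_le_iff₀ hε] at h4
          linarith

lemma bta_disj (h : S_PWKA) {α : ℕ → ℂ} {j l : ℕ} (hjl : j ≠ l) (X n : ℕ) :
    bta α X j n = 0 ∨ bta α X l n = 0 := by
  by_contra hcon
  push Not at hcon
  obtain ⟨h1, h2⟩ := hcon
  have h3 := (h.2.1 α j X n (right_ne_zero_of_mul h1)).2.2
  have h4 := (h.2.1 α l X n (right_ne_zero_of_mul h2)).2.2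
  exact hjl (h3.symm.trans h4)

/-- the base case -/
lemma Gd.base (h : S_PWKA) {A : ℝ} (hA : 0 ≤ A) {D j l : ℕ} (hj : j ≤ D) (hl : l ≤ D) :
    Gd A D (fun α X t => (una α X t ^ j * (starRingEnd ℂ) (una α X t ^ l)).re)
      (fun α X => if j = l then (j.factorial * 2 ^ j * va α X ^ j : ℝ) else 0) := by
  refine ⟨(j.factorial * 2 ^ j * (2 * A ^ 2) ^ j + 1) + (l.factorial * 2 ^ l * (2 * A ^ 2) ^ l + 1),
    by positivity, fun ε hε => ?_⟩
  filter_upwards [N2_lima h hA j (lt_min hε one_pos), N2_lima h hA l (lt_min hε one_pos), va_bd A,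
    eventually_ge_atTop 1] with X c1 c2 c3 hX N hN α hα
  have d1 := c1 α hα
  have d2 := c2 α hα
  obtain ⟨v0, v1⟩ := c3 α hα
  rw [← N2_bta h hj hX hN, abs_le] at d1
  rw [← N2_bta h hl hX hN, abs_le] at d2
  have m1 := min_le_left ε 1
  have m2 := min_le_right ε 1
  have w1 : (j.factorial : ℝ) * 2 ^ j * va α X ^ j ≤ j.factorial * 2 ^ j * (2 * A ^ 2) ^ j :=
    mul_le_mul_of_nonneg_left (pow_le_pow_left₀ v0 v1 j) (by positivity)
  have w2 : (l.factorial : ℝ) * 2 ^ l * va α X ^ l ≤ l.factorial * 2 ^ l * (2 * A ^ 2) ^ l :=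
    mul_le_mul_of_nonneg_left (pow_le_pow_left₀ v0 v1 l) (by positivity)
  refine ⟨2, ![1 / 4, -(1 / 4)], ![fun n => bta α X j n + bta α X l n,
    fun n => bta α X j n - bta α X l n], fun t => ?_, ?_, ?_⟩
  · unfold WT
    rw [Fin.sum_univ_two]
    simp only [Matrix.cons_val_zero, Matrix.cons_val_one]
    rw [dp_add, dp_sub, dp_bta h hj hX hN, dp_bta h hl hX hN, re_mul_conj]
  · unfold VW
    rw [Fin.sum_univ_two]
    simp only [Matrix.cons_val_zero, Matrix.cons_val_one]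
    rw [abs_neg, abs_of_pos (by norm_num : (0 : ℝ) < 1 / 4)]
    have n1 := N2_nonneg N (bta α X j)
    have n2 := N2_nonneg N (bta α X l)
    by_cases hjl : j = l
    · subst hjl
      have e1 : N2 N (fun n => bta α X j n + bta α X j n) = 4 * N2 N (bta α X j) := by
        have : (fun n => bta α X j n + bta α X j n) = fun n => (2 : ℂ) * bta α X j n := by
          funext n; ring
        rw [this, N2_mul]; norm_num
      have e2 : N2 N (fun n => bta α X j n - bta α X j n) = 0 := by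
        simp [N2]
      rw [e1, e2]
      linarith
    · rw [N2_add_disj N _ _ (bta_disj h hjl X), N2_sub_disj N _ _ (bta_disj h hjl X)]
      linarith
  · unfold MW
    rw [Fin.sum_univ_two]
    simp only [Matrix.cons_val_zero, Matrix.cons_val_one]
    by_cases hjl : j = l
    · subst hjl
      have e1 : N2 N (fun n => bta α X j n + bta α X j n) = 4 * N2 N (bta α X j) := by
        have : (fun n => bta α X j n + bta α X j n) = fun n => (2 : ℂ) * bta α X j n := by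
          funext n; ring
        rw [this, N2_mul]; norm_num
      have e2 : N2 N (fun n => bta α X j n - bta α X j n) = 0 := by
        simp [N2]
      rw [e1, e2, if_pos rfl, abs_le]
      constructor <;> linarith
    · rw [N2_add_disj N _ _ (bta_disj h hjl X), N2_sub_disj N _ _ (bta_disj h hjl X), if_neg hjl,
        abs_le]
      constructor <;> linarith

lemma gms (k : ℕ) {v : ℝ} (hv : 0 ≤ v) : ∑ j ∈ Finset.range (k + 1), (1 / 2) ^ k * (k.choose j : ℝ) *
    (if j = k - j then (j.factorial * 2 ^ j * v ^ j : ℝ) else 0) =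
      ∫ x, (Real.sqrt v * x) ^ k ∂(gaussianReal 0 1) := by
  have e1 : ∫ x, (Real.sqrt v * x) ^ k ∂(gaussianReal 0 1) =
      Real.sqrt v ^ k * ∫ x, x ^ k ∂(gaussianReal 0 1) := by
    rw [← integral_const_mul]
    simp only [mul_pow]
  rw [e1, ← gm_sum, Finset.mul_sum]
  refine Finset.sum_congr rfl fun j hj => ?_
  by_cases hjk : j = k - j
  · rw [if_pos hjk, if_pos hjk]
    have hj1 : j < k + 1 := Finset.mem_range.1 hj
    have e2 : k = 2 * j := by omega
    have e3 : Real.sqrt v ^ k = v ^ j := by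
      rw [e2, pow_mul, Real.sq_sqrt hv]
    rw [e3]
    ring
  · rw [if_neg hjk, if_neg hjk]
    ring

/-- the Gaussian moment in terms of the variance (also for negative `v`) -/
def gv (k : ℕ) (v : ℝ) : ℝ := ∑ j ∈ Finset.range (k + 1), (1 / 2) ^ k * (k.choose j : ℝ) *
    (if j = k - j then (j.factorial * 2 ^ j * v ^ j : ℝ) else 0)

lemma Gd.mono (h : S_PWKA) {A : ℝ} (hA : 0 ≤ A) {D k : ℕ} (hk : k ≤ D) :
    Gd A D (fun α X t => RNa α X t ^ k) (fun α X => gv k (va α X)) := by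
  have h1 := Gd.sum (A := A) (D := D) (Finset.range (k + 1))
    (fun j α X t => (1 / 2) ^ k * (k.choose j : ℝ) *
      (una α X t ^ j * (starRingEnd ℂ) (una α X t ^ (k - j))).re)
    (fun j α X => (1 / 2) ^ k * (k.choose j : ℝ) *
      (if j = k - j then (j.factorial * 2 ^ j * va α X ^ j : ℝ) else 0))
    (fun j hj => Gd.smul _ (Gd.base h hA (by
      have := Finset.mem_range.1 hj; omega) (by omega)))
  exact h1.congr (fun α X t => by rw [RNa_eq, re_pow]) (fun α X => rfl)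

lemma int_eval (q : Polynomial ℝ) {v : ℝ} (hv : 0 ≤ v) :
    ∫ x, q.eval (Real.sqrt v * x) ∂(gaussianReal 0 1) =
      ∑ k ∈ Finset.range (q.natDegree + 1), q.coeff k * gv k v := by
  have e1 : (fun x : ℝ => q.eval (Real.sqrt v * x)) =
      fun x => ∑ k ∈ Finset.range (q.natDegree + 1), q.coeff k * (Real.sqrt v * x) ^ k := by
    funext x
    rw [Polynomial.eval_eq_sum_range]
  have hi : ∀ k : ℕ, Integrable (fun x : ℝ => (Real.sqrt v * x) ^ k) (gaussianReal 0 1) := by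
    intro k
    simp only [mul_pow]
    exact (H999R5.Inj.GAUx.int_pow k).const_mul _
  rw [e1, integral_finsetSum _ fun k _ => (hi k).const_mul _]
  refine Finset.sum_congr rfl fun k _ => ?_
  rw [integral_const_mul, ← gms k hv]
  rfl

/-- **WIDA** -/
theorem t_WIDA : J_WIDA := by
  intro h q A hA
  have h1 := Gd.sum (A := A) (D := q.natDegree) (Finset.range (q.natDegree + 1))
    (fun k α X t => q.coeff k * RNa α X t ^ k) (fun k α X => q.coeff k * gv k (va α X))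
    (fun k hk => Gd.smul _ (Gd.mono h hA (by have := Finset.mem_range.1 hk; omega)))
  obtain ⟨C, hC, h2⟩ := h1
  refine ⟨C, hC, fun ε hε => ?_⟩
  filter_upwards [h2 ε hε, va_bd A] with X h3 h4 N hN α hα
  obtain ⟨J, a, b, l1, l2, l3⟩ := h3 N hN α hα
  refine ⟨J, a, b, fun t => ?_, l2, ?_⟩
  · rw [l1 t, Polynomial.eval_eq_sum_range]
  · rw [int_eval q (h4 α hα).1]
    exact l3

end

end Pool.Agent.Q285.UM
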